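import Pool.Agent.R13.Few.Up

/-! The converse: from linearised estimates in dimension `m+k` down to the maximal estimate in
dimension `m`. -/

open MeasureTheory Complex Real
open scoped RealInnerProductSpace ENNReal NNReal ComplexConjugate Topology SchwartzMap

set_option linter.unusedSectionVars false

namespace R13.Few

open R13.Radii R13.Dim

/-- The linearised estimate in `L²` form. -/
def Lin (m k : ℕ) (D : ℝ≥0∞) : Prop :=
  ∀ ϱ : E m → ℝ, Measurable ϱ → (∀ u, 0 < ϱ u) → ∀ G : E (m+k) → ℂ, Measurable G →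
    MemLp G 2 volume → ∫⁻ w, ‖ballInt G (ϱ (tail m k w)) w‖ₑ ^ 2 ≤ D * ∫⁻ w, ‖G w‖ₑ ^ 2

lemma exists_schwartz_seq {n : ℕ} {g : E n → ℂ} (hg : MemLp g 2 (volume : Measure (E n))) :
    ∃ u : ℕ → 𝓢(E n, ℂ), Filter.Tendsto
      (fun j => eLpNorm ((u j : E n → ℂ) - g) 2 volume) Filter.atTop (𝓝 0) := by
  have : Fact ((1:ℝ≥0∞) ≤ 2) := ⟨by norm_num⟩
  have hd := SchwartzMap.denseRange_toLpCLM (E := E n) (F := ℂ) (p := 2) (by norm_num)
    (μ := (volume : Measure (E n)))
  have hmem : ∀ j : ℕ, ∃ v : 𝓢(E n, ℂ), dist (SchwartzMap.toLpCLM ℝ ℂ 2 volume v) (hg.toLp g)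
      < 1 / ((j:ℝ) + 1) := by
    intro j
    obtain ⟨v, hv⟩ := hd.exists_dist_lt (hg.toLp g) (ε := 1 / ((j:ℝ) + 1)) (by positivity)
    exact ⟨v, by rw [dist_comm]; exact hv⟩
  choose u hu using hmem
  refine ⟨u, ?_⟩
  have e1 : ∀ j, eLpNorm ((u j : E n → ℂ) - g) 2 volume ≤ ENNReal.ofReal (1 / ((j:ℝ) + 1)) := by
    intro j
    have h1 := (hu j).le
    rw [dist_edist] at h1
    have h2 : edist (SchwartzMap.toLpCLM ℝ ℂ 2 volume (u j)) (hg.toLp g)
        = eLpNorm ((u j : E n → ℂ) - g) 2 volume := by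
      change edist (((u j).memLp 2 volume).toLp (u j)) (hg.toLp g) = _
      rw [Lp.edist_toLp_toLp]
    rw [h2] at h1
    have hne : eLpNorm ((u j : E n → ℂ) - g) 2 volume ≠ ∞ :=
      (((u j).memLp 2 volume).sub hg).eLpNorm_ne_top
    rw [← ENNReal.ofReal_toReal hne]
    exact ENNReal.ofReal_le_ofReal h1
  refine tendsto_of_tendsto_of_tendsto_of_le_of_le tendsto_const_nhds ?_ (fun _ => bot_le) e1
  have h3 : Filter.Tendsto (fun j : ℕ => 1 / ((j:ℝ) + 1)) Filter.atTop (𝓝 0) :=
    tendsto_one_div_add_atTop_nhds_zero_nat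
  have := (ENNReal.continuous_ofReal.tendsto 0).comp h3
  rw [ENNReal.ofReal_zero] at this
  exact this

/-- From Schwartz functions to `L²`. -/
lemma lin_of_schwartz {m k : ℕ} {D : ℝ≥0∞} (hD : D ≠ ∞)
    (h : ∀ ϱ : E m → ℝ, Measurable ϱ → (∀ u, 0 < ϱ u) → ∀ G : 𝓢(E (m+k), ℂ),
      ∫⁻ w, ‖ballInt (G : E (m+k) → ℂ) (ϱ (tail m k w)) w‖ₑ ^ 2 ≤ D * ∫⁻ w, ‖G w‖ₑ ^ 2) :
    Lin m k D := by
  intro ϱ hϱ hpos g _ hg
  obtain ⟨u, hu⟩ := exists_schwartz_seq hg
  have hmem : ∀ j, MemLp (u j : E (m+k) → ℂ) 2 volume := fun j => (u j).memLp 2 volume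
  have hpt : ∀ (R : ℝ) (x : E (m+k)), Filter.Tendsto
      (fun j => ‖ballInt (u j : E (m+k) → ℂ) R x‖ₑ) Filter.atTop (𝓝 ‖ballInt g R x‖ₑ) := by
    intro R x
    have h1 : Filter.Tendsto (fun j => ballInt (u j : E (m+k) → ℂ) R x) Filter.atTop
        (𝓝 (ballInt g R x)) := by
      rw [tendsto_iff_edist_tendsto_0]
      have hv : volume (Metric.closedBall (0 : E (m+k)) R) ^ (1/2 : ℝ) ≠ ∞ :=
        ENNReal.rpow_ne_top_of_nonneg (by norm_num) measure_closedBall_lt_top.ne
      have h2 : Filter.Tendsto (fun j => eLpNorm ((u j : E (m+k) → ℂ) - g) 2 volume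
          * volume (Metric.closedBall (0 : E (m+k)) R) ^ (1/2 : ℝ)) Filter.atTop (𝓝 (0 * _)) :=
        ENNReal.Tendsto.mul_const hu (Or.inr hv)
      rw [zero_mul] at h2
      refine tendsto_of_tendsto_of_tendsto_of_le_of_le tendsto_const_nhds h2 (fun _ => bot_le)
        fun j => ?_
      rw [edist_eq_enorm_sub]
      exact ballInt_diff_le (hmem j) hg R x
    exact (continuous_enorm.tendsto _).comp h1
  have hlim : ∀ w, ‖ballInt g (ϱ (tail m k w)) w‖ₑ ^ 2 = Filter.liminf
      (fun j => ‖ballInt (u j : E (m+k) → ℂ) (ϱ (tail m k w)) w‖ₑ ^ 2) Filter.atTop := by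
    intro w
    have h1 : Filter.Tendsto (fun j => ‖ballInt (u j : E (m+k) → ℂ) (ϱ (tail m k w)) w‖ₑ ^ 2)
        Filter.atTop (𝓝 (‖ballInt g (ϱ (tail m k w)) w‖ₑ ^ 2)) :=
      ((ENNReal.continuous_pow 2).tendsto _).comp (hpt _ w)
    exact h1.liminf_eq.symm
  calc ∫⁻ w, ‖ballInt g (ϱ (tail m k w)) w‖ₑ ^ 2
      = ∫⁻ w, Filter.liminf
        (fun j => ‖ballInt (u j : E (m+k) → ℂ) (ϱ (tail m k w)) w‖ₑ ^ 2) Filter.atTop :=
        lintegral_congr hlim
    _ ≤ Filter.liminf (fun j => ∫⁻ w, ‖ballInt (u j : E (m+k) → ℂ) (ϱ (tail m k w)) w‖ₑ ^ 2)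
          Filter.atTop := by
        refine lintegral_liminf_le fun j => ?_
        have := meas_param (X := E (m+k)) (G := fun _ : E (m+k) => (u j : E (m+k) → ℂ))
          ((u j).continuous.measurable.comp measurable_snd) (hϱ.comp (measurable_tail m k)) measurable_id
        exact this.enorm.pow_const 2
    _ ≤ Filter.liminf (fun j => D * (eLpNorm g 2 volume + eLpNorm ((u j : E (m+k) → ℂ) - g) 2 volume) ^ 2)
          Filter.atTop := by
        refine Filter.liminf_le_liminf (Filter.Eventually.of_forall fun j => ?_)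
        refine (h ϱ hϱ hpos (u j)).trans ?_
        rw [← sq_int_eq]
        gcongr
        have : (u j : E (m+k) → ℂ) = g + ((u j : E (m+k) → ℂ) - g) := by ext; simp
        conv_lhs => rw [this]
        exact eLpNorm_add_le hg.aestronglyMeasurable ((hmem j).sub hg).aestronglyMeasurable (by norm_num)
    _ = D * (eLpNorm g 2 volume + 0) ^ 2 := by
        apply Filter.Tendsto.liminf_eq
        have h1 : Filter.Tendsto (fun j => (eLpNorm g 2 volume
            + eLpNorm ((u j : E (m+k) → ℂ) - g) 2 volume) ^ 2)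
            Filter.atTop (𝓝 ((eLpNorm g 2 volume + 0) ^ 2)) :=
          ((ENNReal.continuous_pow 2).tendsto _).comp (tendsto_const_nhds.add hu)
        exact ENNReal.Tendsto.const_mul h1 (Or.inr hD)
    _ = D * ∫⁻ ξ, ‖g ξ‖ₑ ^ 2 := by rw [add_zero, sq_int_eq]

lemma measurable_tens {n : ℕ} {ε : ℝ} {g : E n → ℂ} (hg : Measurable g) : Measurable (tens ε g) := by
  unfold tens
  have h1 : Measurable (fun w : E (n+1) => (spl n w).1) := measurable_fst.comp (spl n).measurable
  have h2 : Measurable (fun w : E (n+1) => (spl n w).2) := measurable_snd.comp (spl n).measurable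
  exact ((measurable_const.indicator measurableSet_Icc).comp h1).mul (hg.comp h2)

lemma lin_bound {n : ℕ} (hn : 1 ≤ n) {ε R : ℝ} (hε : 0 < ε) (hR : 0 < R) {g : E n → ℂ}
    (hg : MemLp g 2 volume) (w : E (n+1)) (hy0 : 0 ≤ (spl n w).1) (hy : (spl n w).1 ≤ 1 / (16 * ε)) :
    ‖ballInt g R (spl n w).2‖ₑ ^ 2 ≤ ENNReal.ofReal (16 / ε ^ 2) * ‖ballInt (tens ε g) R w‖ₑ ^ 2
      + 16 * modc g ε (spl n w).2 ^ 2 := by
  have hfr : 1 ≤ Module.finrank ℝ (E n) := by simpa using hn
  have hnt : Nontrivial (E n) := finrank_pos_nontrivial hfr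
  have h1 : ‖ballInt g R (spl n w).2‖ₑ ≤ ENNReal.ofReal (2 / ε) * ‖ballInt (tens ε g) R w‖ₑ
      + 2 * modc g ε (spl n w).2 := by
    rcases le_or_gt ε R with h | h
    · exact key_bound hn hε h hg w hy0 hy
    · have h2 : ‖ballInt g R (spl n w).2 - ballInt g 0 (spl n w).2‖ₑ ≤ modc g ε (spl n w).2 := by
        refine le_iSup₂_of_le 0 (Set.mem_Ici.2 le_rfl) ?_
        exact le_iSup₂_of_le R ⟨hR.le, by linarith⟩ le_rfl
      rw [ballInt_zero, sub_zero] at h2
      calc ‖ballInt g R (spl n w).2‖ₑ ≤ 1 * modc g ε (spl n w).2 := by rw [one_mul]; exact h2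
        _ ≤ 2 * modc g ε (spl n w).2 := by gcongr; norm_num
        _ ≤ _ := le_add_self
  calc ‖ballInt g R (spl n w).2‖ₑ ^ 2 ≤ (ENNReal.ofReal (2 / ε) * ‖ballInt (tens ε g) R w‖ₑ
      + 2 * modc g ε (spl n w).2) ^ 2 := by gcongr
    _ ≤ 4 * (ENNReal.ofReal (2 / ε) * ‖ballInt (tens ε g) R w‖ₑ) ^ 2
        + 4 * (2 * modc g ε (spl n w).2) ^ 2 := add_sq_le_four _ _
    _ = _ := by
        rw [mul_pow, mul_pow, ← mul_assoc, ← mul_assoc]
        congr 1
        · congr 1
          rw [← ENNReal.ofReal_pow (by positivity)]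
          have : ENNReal.ofReal 4 = 4 := by simp
          rw [← this, ← ENNReal.ofReal_mul (by norm_num)]
          congr 1
          rw [div_pow]; ring
        · norm_num

/-- One step down. -/
lemma step_down {m k : ℕ} (hm : 1 ≤ m) {D : ℝ≥0∞} (h : Lin m (k+1) D) :
    Lin m k (256 * D + 16 * ENNReal.ofReal (216 * rexp π * shellConst (E (m+k)))) := by
  intro ϱ hϱ hpos g hgm hg
  have hn : 1 ≤ m + k := by omega
  have hfr : 1 ≤ Module.finrank ℝ (E (m+k)) := by simpa using hn
  set f : E (m+k) → ℝ≥0∞ := fun x => ‖ballInt g (ϱ (tail m k x)) x‖ₑ ^ 2 with hf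
  have hfm : Measurable f := by
    have := meas_param (X := E (m+k)) (G := fun _ : E (m+k) => g)
      (hgm.comp measurable_snd) (hϱ.comp (measurable_tail m k)) measurable_id
    exact this.enorm.pow_const 2
  have hball : ∀ ρ : ℝ, 0 < ρ → ∫⁻ x in Metric.closedBall (0 : E (m+k)) ρ, f x
      ≤ (256 * D + 16 * ENNReal.ofReal (216 * rexp π * shellConst (E (m+k)))) * ∫⁻ ξ, ‖g ξ‖ₑ ^ 2 := by
    intro ρ hρ
    set ε : ℝ := 1 / ρ with hεd
    have hε : 0 < ε := by positivity
    have hερ : ε * ρ = 1 := by rw [hεd]; field_simp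
    set a : ℝ≥0∞ := ENNReal.ofReal (1 / (16 * ε)) with ha
    have ha0 : a ≠ 0 := (ENNReal.ofReal_pos.2 (by positivity)).ne'
    have hat : a ≠ ∞ := ENNReal.ofReal_ne_top
    set B : Set (E (m+k)) := Metric.closedBall (0 : E (m+k)) ρ with hB
    have hBm : MeasurableSet B := Metric.isClosed_closedBall.measurableSet
    set J : Set ℝ := Set.Icc (0:ℝ) (1 / (16 * ε)) with hJ
    have hJm : MeasurableSet J := measurableSet_Icc
    have hJv : volume J = a := by rw [hJ, Real.volume_Icc, sub_zero]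
    have hprod : ∀ F : E (m+k) → ℝ≥0∞, Measurable F →
        ∫⁻ w : E (m+k+1), J.indicator (fun _ => (1:ℝ≥0∞)) (spl (m+k) w).1 * B.indicator F (spl (m+k) w).2
          = a * ∫⁻ x in B, F x := by
      intro F hF
      rw [(spl_mp (m+k)).lintegral_comp_emb (spl (m+k)).measurableEmbedding
        (fun z : ℝ × E (m+k) => J.indicator (fun _ => (1:ℝ≥0∞)) z.1 * B.indicator F z.2)]
      have hv : (volume : Measure (ℝ × E (m+k)))
        = (volume : Measure ℝ).prod (volume : Measure (E (m+k))) := rfl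
      rw [hv, lintegral_prod_mul (f := J.indicator (fun _ => (1:ℝ≥0∞))) (g := B.indicator F)
        (measurable_const.indicator hJm).aemeasurable (hF.indicator hBm).aemeasurable,
        lintegral_indicator hBm, lintegral_indicator hJm]
      simp [hJv]
    have hmm : Measurable (fun x => modc g ε x ^ 2) := (measurable_modc hg ε).pow_const 2
    have htm : Measurable (tens ε g) := measurable_tens hgm
    set F1 : E (m+k+1) → ℝ≥0∞ := fun w => ‖ballInt (tens ε g) (ϱ (tail m (k+1) w)) w‖ₑ ^ 2 with hF1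
    have hF1m : Measurable F1 := by
      have := meas_param (X := E (m+k+1)) (G := fun _ : E (m+k+1) => tens ε g)
        (htm.comp measurable_snd) (hϱ.comp (measurable_tail m (k+1))) measurable_id
      exact this.enorm.pow_const 2
    have hpt : ∀ w : E (m+k+1), J.indicator (fun _ => (1:ℝ≥0∞)) (spl (m+k) w).1
          * B.indicator f (spl (m+k) w).2
        ≤ ENNReal.ofReal (16 / ε ^ 2) * F1 w
          + 16 * (J.indicator (fun _ => (1:ℝ≥0∞)) (spl (m+k) w).1
            * B.indicator (fun x => modc g ε x ^ 2) (spl (m+k) w).2) := by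
      intro w
      by_cases h1 : (spl (m+k) w).1 ∈ J
      · by_cases h2 : (spl (m+k) w).2 ∈ B
        · rw [Set.indicator_of_mem h1, Set.indicator_of_mem h2, Set.indicator_of_mem h2, one_mul,
            one_mul]
          have h3 := lin_bound hn hε (hpos (tail m k (spl (m+k) w).2)) hg w h1.1 h1.2
          simp only [hf, hF1, tail_succ]
          exact h3
        · rw [Set.indicator_of_notMem h2]; simp
      · rw [Set.indicator_of_notMem h1]; simp
    have hmain : a * ∫⁻ x in B, f x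
        ≤ a * ((256 * D + 16 * ENNReal.ofReal (216 * rexp π * shellConst (E (m+k))))
          * ∫⁻ ξ, ‖g ξ‖ₑ ^ 2) := by
      calc a * ∫⁻ x in B, f x
          = ∫⁻ w : E (m+k+1), J.indicator (fun _ => (1:ℝ≥0∞)) (spl (m+k) w).1
              * B.indicator f (spl (m+k) w).2 := (hprod _ hfm).symm
        _ ≤ ∫⁻ w : E (m+k+1), (ENNReal.ofReal (16 / ε ^ 2) * F1 w
              + 16 * (J.indicator (fun _ => (1:ℝ≥0∞)) (spl (m+k) w).1
                * B.indicator (fun x => modc g ε x ^ 2) (spl (m+k) w).2)) := lintegral_mono hpt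
        _ = ENNReal.ofReal (16 / ε ^ 2) * (∫⁻ w, F1 w)
              + 16 * (a * ∫⁻ x in B, modc g ε x ^ 2) := by
            rw [lintegral_add_left (hF1m.const_mul _), lintegral_const_mul' _ _ ENNReal.ofReal_ne_top,
              lintegral_const_mul' _ _ (by norm_num), hprod _ hmm]
        _ ≤ ENNReal.ofReal (16 / ε ^ 2) * (D * (ENNReal.ofReal ε * ∫⁻ ξ, ‖g ξ‖ₑ ^ 2))
              + 16 * (a * (ENNReal.ofReal (216 * rexp π * shellConst (E (m+k)))
                * ENNReal.ofReal (ε * ρ) * ∫⁻ ξ, ‖g ξ‖ₑ ^ 2)) := by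
            gcongr
            · rw [← tens_sq hε.le hg.aestronglyMeasurable]
              exact h ϱ hϱ hpos (tens ε g) htm (tens_memLp hε.le hg)
            · exact modc_ball hfr hg hε hρ
        _ = _ := by
            have e1 : ENNReal.ofReal (16 / ε ^ 2) * ENNReal.ofReal ε = 256 * a := by
              have : ENNReal.ofReal 256 = 256 := by simp
              rw [ha, ← this, ← ENNReal.ofReal_mul (by positivity), ← ENNReal.ofReal_mul (by norm_num)]
              congr 1
              field_simp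
              norm_num
            rw [hερ, ENNReal.ofReal_one, mul_one]
            calc _ = (ENNReal.ofReal (16 / ε ^ 2) * ENNReal.ofReal ε) * (D * ∫⁻ ξ, ‖g ξ‖ₑ ^ 2)
                  + 16 * (a * (ENNReal.ofReal (216 * rexp π * shellConst (E (m+k)))
                    * ∫⁻ ξ, ‖g ξ‖ₑ ^ 2)) := by ring
              _ = _ := by rw [e1]; ring
    exact (ENNReal.mul_le_mul_iff_right ha0 hat).1 hmain
  have hU : (⋃ N : ℕ, Metric.closedBall (0 : E (m+k)) ((N:ℝ) + 1)) = Set.univ := by
    rw [Set.eq_univ_iff_forall]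
    intro x
    obtain ⟨N, hN⟩ := exists_nat_gt ‖x‖
    refine Set.mem_iUnion.2 ⟨N, ?_⟩
    rw [mem_closedBall_zero_iff]
    linarith
  have hdir : Directed (· ⊆ ·) (fun N : ℕ => Metric.closedBall (0 : E (m+k)) ((N:ℝ) + 1)) := by
    apply Monotone.directed_le
    intro N M hNM
    apply Metric.closedBall_subset_closedBall
    have : (N:ℝ) ≤ M := by exact_mod_cast hNM
    linarith
  calc ∫⁻ x, f x = ∫⁻ x in Set.univ, f x := by rw [setLIntegral_univ]
    _ = ⨆ N : ℕ, ∫⁻ x in Metric.closedBall (0 : E (m+k)) ((N:ℝ) + 1), f x := by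
        rw [← hU, setLIntegral_iUnion_of_directed _ hdir]
    _ ≤ _ := iSup_le fun N => hball _ (by positivity)

lemma down_to_zero {m : ℕ} (hm : 1 ≤ m) (k : ℕ) {D : ℝ≥0∞} (hD : D ≠ ∞) (h : Lin m k D) :
    ∃ D' : ℝ≥0∞, D' ≠ ∞ ∧ Lin m 0 D' := by
  induction k generalizing D with
  | zero => exact ⟨D, hD, h⟩
  | succ k ih =>
    refine ih ?_ (step_down hm h)
    refine ENNReal.add_ne_top.2 ⟨ENNReal.mul_ne_top (by norm_num) hD, ?_⟩
    exact ENNReal.mul_ne_top (by norm_num) ENNReal.ofReal_ne_top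

/-- Radius function choosing the best of the first radii. -/
noncomputable def best {m : ℕ} (g : E m → ℂ) (q : ℕ → ℝ) : ℕ → E m → ℝ
  | 0 => fun _ => q 0
  | N + 1 => fun x => if ‖ballInt g (best g q N x) x‖ < ‖ballInt g (q (N+1)) x‖ then q (N+1)
      else best g q N x

lemma best_meas {m : ℕ} {g : E m → ℂ} (hg : Measurable g) (q : ℕ → ℝ) (N : ℕ) :
    Measurable (best g q N) := by
  induction N with
  | zero => exact measurable_const
  | succ N ih =>
    have h1 : Measurable (fun x : E m => ballInt g (best g q N x) x) :=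
      meas_param (X := E m) (G := fun _ : E m => g) (hg.comp measurable_snd) ih measurable_id
    have h2 : Measurable (fun x : E m => ballInt g (q (N+1)) x) :=
      meas_param (X := E m) (G := fun _ : E m => g) (hg.comp measurable_snd) measurable_const
        measurable_id
    exact Measurable.ite (measurableSet_lt h1.norm h2.norm) measurable_const ih

lemma best_pos {m : ℕ} {g : E m → ℂ} {q : ℕ → ℝ} (hq : ∀ i, 0 < q i) (N : ℕ) (x : E m) :
    0 < best g q N x := by
  induction N with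
  | zero => exact hq 0
  | succ N ih =>
    simp only [best]
    split_ifs
    · exact hq _
    · exact ih

lemma best_mono {m : ℕ} (g : E m → ℂ) (q : ℕ → ℝ) (x : E m) (N : ℕ) :
    ‖ballInt g (best g q N x) x‖ ≤ ‖ballInt g (best g q (N+1) x) x‖ := by
  simp only [best]
  split_ifs with h
  · exact h.le
  · exact le_rfl

lemma best_ge {m : ℕ} (g : E m → ℂ) (q : ℕ → ℝ) (x : E m) (i : ℕ) :
    ‖ballInt g (q i) x‖ ≤ ‖ballInt g (best g q i x) x‖ := by
  cases i with
  | zero => exact le_rfl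
  | succ i =>
    simp only [best]
    split_ifs with h
    · exact le_rfl
    · exact not_lt.1 h

/-- Base: the linearised estimate gives the maximal one. -/
lemma base {m : ℕ} (hm : 1 ≤ m) {D : ℝ≥0∞} (h : Lin m 0 D) {g : E m → ℂ} (hgm : Measurable g)
    (hg : MemLp g 2 volume) : ∫⁻ x, maxBall g x ^ 2 ≤ D * ∫⁻ ξ, ‖g ξ‖ₑ ^ 2 := by
  have hfr : 1 ≤ Module.finrank ℝ (E m) := by simpa using hm
  have hnt : Nontrivial (E m) := finrank_pos_nontrivial hfr
  let q : ℕ → ℝ := fun j => if 0 < TopologicalSpace.denseSeq ℝ j then TopologicalSpace.denseSeq ℝ j else 1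
  have hq : ∀ i, 0 < q i := by
    intro i
    simp only [q]
    split_ifs with h
    · exact h
    · exact one_pos
  have hsup : ∀ x, maxBall g x ≤ ⨆ N, ‖ballInt g (best g q N x) x‖ₑ := by
    intro x
    set M := ⨆ N, ‖ballInt g (best g q N x) x‖ₑ with hM
    have hcl : IsClosed {R : ℝ | ‖ballInt g R x‖ₑ ≤ M} :=
      isClosed_le ((continuous_ballInt_R hg x).enorm) continuous_const
    have hsub : Set.Ioi (0:ℝ) ∩ Set.range (TopologicalSpace.denseSeq ℝ)
        ⊆ {R : ℝ | ‖ballInt g R x‖ₑ ≤ M} := by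
      rintro R ⟨hR, j, rfl⟩
      have hqj : q j = TopologicalSpace.denseSeq ℝ j := by
        simp only [q]
        rw [if_pos (show 0 < TopologicalSpace.denseSeq ℝ j from hR)]
      change ‖ballInt g (TopologicalSpace.denseSeq ℝ j) x‖ₑ ≤ M
      rw [← hqj]
      refine le_trans ?_ (le_iSup (fun N => ‖ballInt g (best g q N x) x‖ₑ) j)
      rw [← ofReal_norm, ← ofReal_norm]
      exact ENNReal.ofReal_le_ofReal (best_ge g q x j)
    refine iSup₂_le fun R hR => ?_
    have h1 : R ∈ closure (Set.Ioi (0:ℝ) ∩ Set.range (TopologicalSpace.denseSeq ℝ)) :=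
      (TopologicalSpace.denseRange_denseSeq ℝ).open_subset_closure_inter isOpen_Ioi hR
    exact closure_minimal hsub hcl h1
  have hmN : ∀ N, Measurable (fun x => ‖ballInt g (best g q N x) x‖ₑ ^ 2) := by
    intro N
    have := meas_param (X := E m) (G := fun _ : E m => g) (hgm.comp measurable_snd)
      (best_meas hgm q N) measurable_id
    exact this.enorm.pow_const 2
  calc ∫⁻ x, maxBall g x ^ 2 ≤ ∫⁻ x, ⨆ N, ‖ballInt g (best g q N x) x‖ₑ ^ 2 := by
        refine lintegral_mono fun x => ?_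
        calc maxBall g x ^ 2 ≤ (⨆ N, ‖ballInt g (best g q N x) x‖ₑ) ^ 2 := by
              gcongr; exact hsup x
          _ = _ := by rw [ENNReal.iSup_pow_of_ne_zero (by norm_num)]
    _ = ⨆ N, ∫⁻ x, ‖ballInt g (best g q N x) x‖ₑ ^ 2 := by
        refine lintegral_iSup hmN ?_
        apply monotone_nat_of_le_succ
        intro N x
        have := best_mono g q x N
        simp only
        gcongr
        rw [← ofReal_norm, ← ofReal_norm]
        exact ENNReal.ofReal_le_ofReal this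
    _ ≤ D * ∫⁻ ξ, ‖g ξ‖ₑ ^ 2 := by
        refine iSup_le fun N => ?_
        have := h (best g q N) (best_meas hgm q N) (best_pos hq N) g hgm hg
        simp only [tail_zero] at this
        exact this

end R13.Few
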