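import Pool.Agent.R13.Dim.Main

/-! Plancherel inequality (with constant 2) from the local estimate. -/

open MeasureTheory Complex Real
open scoped RealInnerProductSpace ENNReal NNReal ComplexConjugate Topology

set_option linter.unusedSectionVars false

namespace R13.Few

open R13.Radii R13.Dim

variable {V : Type*} [NormedAddCommGroup V] [InnerProductSpace ℝ V] [FiniteDimensional ℝ V]
  [MeasurableSpace V] [BorelSpace V]

lemma ext_comp_smul (h : V → ℂ) {t : ℝ} (ht : 0 < t) (x : V) :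
    R13.Radii.ext (fun ξ => h (t⁻¹ • ξ)) x
      = ((t ^ Module.finrank ℝ V : ℝ) : ℂ) * R13.Radii.ext h (t • x) := by
  unfold R13.Radii.ext
  have h1 := Measure.integral_comp_smul (volume : Measure V)
    (fun ξ => chr x (t • ξ) * h ξ) t⁻¹
  have h2 : ∀ ξ : V, chr x (t • t⁻¹ • ξ) * h (t⁻¹ • ξ) = chr x ξ * h (t⁻¹ • ξ) := by
    intro ξ
    rw [smul_smul, mul_inv_cancel₀ ht.ne', one_smul]
  simp only [h2] at h1
  rw [h1]
  have h3 : ∀ ξ : V, chr x (t • ξ) = chr (t • x) ξ := by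
    intro ξ
    unfold chr
    rw [inner_smul_left, inner_smul_right]
    simp
  simp only [h3]
  rw [inv_pow, inv_inv, abs_of_pos (by positivity), Complex.real_smul]

lemma planch_gauss {h : V → ℂ} (hi : Integrable h) {t : ℝ} (ht : 0 < t) :
    ∫⁻ x, ‖R13.Radii.ext h x‖ₑ ^ 2 * ENNReal.ofReal (gw (t⁻¹ • x)) ≤ 2 * ∫⁻ ξ, ‖h ξ‖ₑ ^ 2 := by
  set n := Module.finrank ℝ V with hn
  have htn : (0:ℝ) < t ^ n := by positivity
  have hi' : Integrable (fun ξ => h (t⁻¹ • ξ)) :=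
    (integrable_comp_smul_iff volume h (inv_ne_zero ht.ne')).2 hi
  have hM : ∀ ξ : V, ∫⁻ η in Set.univ, ENNReal.ofReal (gw (ξ - η)) ≤ 1 := by
    intro ξ
    rw [setLIntegral_univ, ← ofReal_integral_eq_lintegral_ofReal (integrable_gw.comp_sub_left ξ)
      (Filter.Eventually.of_forall fun η => (gw_pos _).le), integral_sub_left_eq_self gw volume ξ,
      integral_gw, ENNReal.ofReal_one]
  have h1 := local_est hi' MeasurableSet.univ (fun ξ hξ => absurd (Set.mem_univ ξ) hξ) hM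
  have hc : ENNReal.ofReal (t ^ n) = ‖((t ^ n : ℝ) : ℂ)‖ₑ := by
    rw [← ofReal_norm, Complex.norm_real, Real.norm_of_nonneg (by positivity)]
  have e2 : ∫⁻ x, ‖R13.Radii.ext (fun ξ => h (t⁻¹ • ξ)) x‖ₑ ^ 2 * ENNReal.ofReal (gw x)
      = ENNReal.ofReal (t ^ n) * ∫⁻ y, ‖R13.Radii.ext h y‖ₑ ^ 2 * ENNReal.ofReal (gw (t⁻¹ • y)) := by
    have : ∀ x : V, ‖R13.Radii.ext (fun ξ => h (t⁻¹ • ξ)) x‖ₑ ^ 2 * ENNReal.ofReal (gw x)
        = ENNReal.ofReal (t ^ n) ^ 2 *
          (fun y => ‖R13.Radii.ext h y‖ₑ ^ 2 * ENNReal.ofReal (gw (t⁻¹ • y))) (t • x) := by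
      intro x
      simp only
      rw [ext_comp_smul h ht, enorm_mul, mul_pow, ← hc, smul_smul, inv_mul_cancel₀ ht.ne', one_smul,
        mul_assoc]
    simp_rw [this]
    rw [lintegral_const_mul' _ _ (by simp [ENNReal.ofReal_ne_top]),
      lintegral_comp_smul_pos (fun y => ‖R13.Radii.ext h y‖ₑ ^ 2 * ENNReal.ofReal (gw (t⁻¹ • y))) ht,
      ← mul_assoc, sq, mul_assoc (ENNReal.ofReal (t ^ n)), ← ENNReal.ofReal_mul htn.le,
      mul_inv_cancel₀ htn.ne', ENNReal.ofReal_one, mul_one]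
  have e1 : ∫⁻ ξ, ‖h (t⁻¹ • ξ)‖ₑ ^ 2 = ENNReal.ofReal (t ^ n) * ∫⁻ ξ, ‖h ξ‖ₑ ^ 2 := by
    rw [lintegral_comp_smul_pos (fun ξ => ‖h ξ‖ₑ ^ 2) (inv_pos.2 ht), ← hn, inv_pow, inv_inv]
  rw [e2, e1] at h1
  have hc0 : ENNReal.ofReal (t ^ n) ≠ 0 := (ENNReal.ofReal_pos.2 htn).ne'
  rw [← ENNReal.mul_le_mul_iff_right hc0 ENNReal.ofReal_ne_top]
  refine h1.trans (le_of_eq ?_)
  ring

/-- **Plancherel inequality.** -/
theorem planch {h : V → ℂ} (hi : Integrable h) :
    ∫⁻ x, ‖R13.Radii.ext h x‖ₑ ^ 2 ≤ 2 * ∫⁻ ξ, ‖h ξ‖ₑ ^ 2 := by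
  have hlim : ∀ x : V, Filter.Tendsto (fun j : ℕ => ‖R13.Radii.ext h x‖ₑ ^ 2
      * ENNReal.ofReal (gw (((j:ℝ) + 1)⁻¹ • x))) Filter.atTop (𝓝 (‖R13.Radii.ext h x‖ₑ ^ 2)) := by
    intro x
    have h1 : Filter.Tendsto (fun j : ℕ => ((j:ℝ) + 1)⁻¹ • x) Filter.atTop (𝓝 ((0:ℝ) • x)) := by
      have h3 : Filter.Tendsto (fun j : ℕ => ((j:ℝ) + 1)⁻¹) Filter.atTop (𝓝 0) := by
        have := tendsto_one_div_add_atTop_nhds_zero_nat (𝕜 := ℝ)
        simpa [one_div] using this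
      exact h3.smul_const x
    rw [zero_smul] at h1
    have h2 : Filter.Tendsto (fun j : ℕ => ENNReal.ofReal (gw (((j:ℝ) + 1)⁻¹ • x))) Filter.atTop
        (𝓝 (ENNReal.ofReal (gw (0:V)))) :=
      (ENNReal.continuous_ofReal.tendsto _).comp ((continuous_gw.tendsto _).comp h1)
    have h0 : gw (0:V) = 1 := by simp [gw]
    rw [h0, ENNReal.ofReal_one] at h2
    have h4 := ENNReal.Tendsto.const_mul (a := ‖R13.Radii.ext h x‖ₑ ^ 2) h2 (Or.inl one_ne_zero)
    rwa [mul_one] at h4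
  calc ∫⁻ x, ‖R13.Radii.ext h x‖ₑ ^ 2
      = ∫⁻ x, Filter.liminf (fun j : ℕ => ‖R13.Radii.ext h x‖ₑ ^ 2
        * ENNReal.ofReal (gw (((j:ℝ) + 1)⁻¹ • x))) Filter.atTop := by
        congr 1
        funext x
        exact (hlim x).liminf_eq.symm
    _ ≤ Filter.liminf (fun j : ℕ => ∫⁻ x, ‖R13.Radii.ext h x‖ₑ ^ 2
        * ENNReal.ofReal (gw (((j:ℝ) + 1)⁻¹ • x))) Filter.atTop := by
        refine lintegral_liminf_le fun j => ?_
        exact ((continuous_ext hi).enorm.measurable.pow_const 2).mul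
          (ENNReal.continuous_ofReal.comp (continuous_gw.comp
            (continuous_const_smul (((j:ℝ) + 1)⁻¹)))).measurable
    _ ≤ Filter.liminf (fun _ : ℕ => 2 * ∫⁻ ξ, ‖h ξ‖ₑ ^ 2) Filter.atTop := by
        refine Filter.liminf_le_liminf (Filter.Eventually.of_forall fun j => ?_)
        exact planch_gauss hi (by positivity)
    _ = _ := Filter.liminf_const _

/-- One-dimensional form. -/
lemma planch1 {h : ℝ → ℂ} (hi : Integrable h) :
    ∫⁻ y : ℝ, ‖∫ η, ch1 y η * h η‖ₑ ^ 2 ≤ 2 * ∫⁻ η, ‖h η‖ₑ ^ 2 := by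
  have e : ∀ y : ℝ, ∫ η, ch1 y η * h η = R13.Radii.ext h y := by
    intro y
    unfold R13.Radii.ext
    congr 1
    funext η
    congr 1
    unfold ch1 chr
    congr 2
    simp [mul_comm]
  simp_rw [e]
  exact planch hi

/-! ### Measurability in all variables -/

/-- Measurability of ball sums with a variable radius and an additional parameter. -/
lemma meas_param {n : ℕ} {X : Type*} [MeasurableSpace X] {G : X → E n → ℂ}
    (hG : Measurable (Function.uncurry G)) {R : X → ℝ} (hR : Measurable R) {p : X → E n}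
    (hp : Measurable p) : Measurable (fun z : X => ballInt (G z) (R z) (p z)) := by
  have e : ∀ z, ballInt (G z) (R z) (p z)
      = ∫ ξ, (fun q : X × E n => {q : X × E n | ‖q.2‖ ≤ R q.1}.indicator
          (fun q => chr (p q.1) q.2 * G q.1 q.2) q) (z, ξ) := by
    intro z
    unfold ballInt
    rw [← integral_indicator Metric.isClosed_closedBall.measurableSet]
    congr 1
    funext ξ
    by_cases h : ‖ξ‖ ≤ R z
    · have h1 : ξ ∈ Metric.closedBall (0 : E n) (R z) := by simpa using h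
      have h2 : (z, ξ) ∈ {q : X × E n | ‖q.2‖ ≤ R q.1} := h
      simp only
      rw [Set.indicator_of_mem h1, Set.indicator_of_mem h2]
    · have h1 : ξ ∉ Metric.closedBall (0 : E n) (R z) := by simpa using h
      have h2 : (z, ξ) ∉ {q : X × E n | ‖q.2‖ ≤ R q.1} := h
      simp only
      rw [Set.indicator_of_notMem h1, Set.indicator_of_notMem h2]
  simp_rw [e]
  have hset : MeasurableSet {q : X × E n | ‖q.2‖ ≤ R q.1} :=
    measurableSet_le (measurable_norm.comp measurable_snd) (hR.comp measurable_fst)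
  have hch : Measurable (fun q : X × E n => chr (p q.1) q.2) :=
    continuous_chr.measurable.comp ((hp.comp measurable_fst).prodMk measurable_snd)
  have hm : Measurable (fun q : X × E n => {q : X × E n | ‖q.2‖ ≤ R q.1}.indicator
          (fun q => chr (p q.1) q.2 * G q.1 q.2) q) :=
    (hch.mul hG).indicator hset
  have hs : StronglyMeasurable (fun q : X × E n => {q : X × E n | ‖q.2‖ ≤ R q.1}.indicator
          (fun q => chr (p q.1) q.2 * G q.1 q.2) q) := hm.stronglyMeasurable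
  exact (hs.integral_prod_right' (ν := (volume : Measure (E n)))).measurable

end R13.Few
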