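import Pool.Agent.R13.Few.Planch

/-! Radius functions not depending on the first coordinates: one step up in dimension. -/

open MeasureTheory Complex Real
open scoped RealInnerProductSpace ENNReal NNReal ComplexConjugate Topology

set_option linter.unusedSectionVars false

namespace R13.Few

open R13.Radii R13.Dim

/-- Radius of the slice at height `η` of the ball of radius `R` (negative if empty). -/
noncomputable def rad (R η : ℝ) : ℝ := if |η| ≤ R then Real.sqrt (R ^ 2 - η ^ 2) else -1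

lemma measurable_rad : Measurable (fun p : ℝ × ℝ => rad p.1 p.2) := by
  unfold rad
  refine Measurable.ite ?_ ?_ measurable_const
  · exact measurableSet_le (measurable_snd.abs) measurable_fst
  · exact (Continuous.measurable (by fun_prop))

lemma norm_le_iff_rad {n : ℕ} (w : E (n+1)) (R : ℝ) :
    ‖w‖ ≤ R ↔ ‖(spl n w).2‖ ≤ rad R (spl n w).1 := by
  unfold rad
  have hsq := norm_spl w
  split_ifs with h
  · have hR : 0 ≤ R := (abs_nonneg _).trans h
    have h1 : 0 ≤ R ^ 2 - (spl n w).1 ^ 2 := by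
      have := sq_abs (spl n w).1
      nlinarith [abs_nonneg (spl n w).1]
    rw [Real.le_sqrt (norm_nonneg _) h1, ← abs_of_nonneg hR, ← abs_of_nonneg (norm_nonneg w),
      ← sq_le_sq, hsq, abs_of_nonneg hR]
    constructor <;> intro h <;> linarith
  · constructor
    · intro hw
      exfalso
      apply h
      have h2 : (spl n w).1 ^ 2 ≤ ‖w‖ ^ 2 := by rw [hsq]; nlinarith [sq_nonneg ‖(spl n w).2‖]
      exact (abs_le_of_sq_le_sq h2 (norm_nonneg w)).trans hw
    · intro h2
      have := norm_nonneg (spl n w).2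
      linarith

/-- Slices. -/
noncomputable def sl {n : ℕ} (G : E (n+1) → ℂ) (η : ℝ) (ξ : E n) : ℂ := G ((spl n).symm (η, ξ))

lemma slice_formula {n : ℕ} {G : E (n+1) → ℂ} (hG : MemLp G 2 (volume : Measure (E (n+1))))
    (R : ℝ) (x : E n) :
    Integrable (fun η => ballInt (sl G η) (rad R η) x) ∧
    ∀ y : ℝ, ballInt G R ((spl n).symm (y, x)) = ∫ η, ch1 y η * ballInt (sl G η) (rad R η) x := by
  let Ψ : ℝ → ℝ × E n → ℂ := fun y z => ch1 y z.1 *
    (chr x z.2 * (Metric.closedBall (0 : E n) (rad R z.1)).indicator (sl G z.1) z.2)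
  have e1 : ∀ (y : ℝ) (v : E (n+1)), chr ((spl n).symm (y, x)) v
      * (Metric.closedBall (0 : E (n+1)) R).indicator G v = Ψ y (spl n v) := by
    intro y v
    simp only [Ψ]
    have hiff : v ∈ Metric.closedBall (0 : E (n+1)) R
        ↔ (spl n v).2 ∈ Metric.closedBall (0 : E n) (rad R (spl n v).1) := by
      simp only [mem_closedBall_zero_iff]
      exact norm_le_iff_rad v R
    have hch : chr ((spl n).symm (y, x)) v = ch1 y (spl n v).1 * chr x (spl n v).2 := by
      rw [chr_spl, MeasurableEquiv.apply_symm_apply]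
    have hsl : sl G (spl n v).1 (spl n v).2 = G v := by
      unfold sl
      rw [Prod.mk.eta, MeasurableEquiv.symm_apply_apply]
    by_cases h2 : v ∈ Metric.closedBall (0 : E (n+1)) R
    · rw [Set.indicator_of_mem h2, Set.indicator_of_mem (hiff.1 h2), hch, hsl]
      ring
    · rw [Set.indicator_of_notMem h2, Set.indicator_of_notMem (fun h => h2 (hiff.2 h))]
      simp
  have hint : ∀ y, Integrable (Ψ y) ((volume : Measure ℝ).prod (volume : Measure (E n))) := by
    intro y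
    have h1 := integrable_chr_mul (memLp_indicator_integrable hG
      (A := Metric.closedBall (0 : E (n+1)) R) Metric.isClosed_closedBall.measurableSet
      measure_closedBall_lt_top.ne) ((spl n).symm (y, x))
    simp_rw [e1 y] at h1
    exact ((spl_mp n).integrable_comp_emb (spl n).measurableEmbedding).1 h1
  have hslice : ∀ (y η : ℝ), ∫ ξ, Ψ y (η, ξ) = ch1 y η * ballInt (sl G η) (rad R η) x := by
    intro y η
    simp only [Ψ]
    rw [integral_const_mul, ballInt_eq_ext]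
    rfl
  refine ⟨?_, fun y => ?_⟩
  · have h0 := (hint 0).integral_prod_left
    simp_rw [hslice] at h0
    refine h0.congr (Filter.Eventually.of_forall fun η => ?_)
    have : ch1 0 η = 1 := by simp [ch1]
    simp only [this, one_mul]
  · rw [ballInt_eq_ext]
    unfold R13.Radii.ext
    simp_rw [e1 y]
    rw [(spl_mp n).integral_comp (spl n).measurableEmbedding (Ψ y)]
    have hv : (volume : Measure (ℝ × E n)) = (volume : Measure ℝ).prod (volume : Measure (E n)) := rfl
    rw [hv, integral_prod _ (hint y)]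
    simp_rw [hslice]

lemma measurable_sl {n : ℕ} {G : E (n+1) → ℂ} (hG : Measurable G) :
    Measurable (Function.uncurry (sl G)) := hG.comp (spl n).symm.measurable

lemma lint_slices {n : ℕ} {G : E (n+1) → ℂ} (hG : Measurable G) :
    ∫⁻ η, ∫⁻ ξ, ‖sl G η ξ‖ₑ ^ 2 = ∫⁻ w, ‖G w‖ₑ ^ 2 := by
  have h1 : ∫⁻ w, ‖G w‖ₑ ^ 2 = ∫⁻ w, (fun z : ℝ × E n => ‖sl G z.1 z.2‖ₑ ^ 2) (spl n w) := by
    congr 1
    funext w
    simp only
    unfold sl
    rw [Prod.mk.eta, MeasurableEquiv.symm_apply_apply]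
  rw [h1, (spl_mp n).lintegral_comp_emb (spl n).measurableEmbedding
    (fun z : ℝ × E n => ‖sl G z.1 z.2‖ₑ ^ 2)]
  have hv : (volume : Measure (ℝ × E n)) = (volume : Measure ℝ).prod (volume : Measure (E n)) := rfl
  have hm : AEMeasurable (fun z : ℝ × E n => ‖sl G z.1 z.2‖ₑ ^ 2)
      ((volume : Measure ℝ).prod (volume : Measure (E n))) :=
    ((measurable_sl hG).enorm.pow_const 2).aemeasurable
  rw [hv, lintegral_prod _ hm]

/-- One step up. -/
theorem step_up {n : ℕ} {A : Type*} [MeasurableSpace A] {q : E n → A} (hq : Measurable q)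
    {D : ℝ≥0∞} (hD : D ≠ 0)
    (h : ∀ ϱ : A → ℝ, Measurable ϱ → ∀ g : E n → ℂ, Measurable g → MemLp g 2 volume →
      ∫⁻ x, ‖ballInt g (ϱ (q x)) x‖ₑ ^ 2 ≤ D * ∫⁻ ξ, ‖g ξ‖ₑ ^ 2) :
    ∀ ϱ : A → ℝ, Measurable ϱ → ∀ G : E (n+1) → ℂ, Measurable G → MemLp G 2 volume →
      ∫⁻ w, ‖ballInt G (ϱ (q (spl n w).2)) w‖ₑ ^ 2 ≤ 2 * D * ∫⁻ w, ‖G w‖ₑ ^ 2 := by
  intro ϱ hϱ G hG hG2
  have hv : (volume : Measure (ℝ × E n)) = (volume : Measure ℝ).prod (volume : Measure (E n)) := rfl
  let Φ : ℝ × E n → ℝ≥0∞ := fun z => ‖ballInt G (ϱ (q z.2)) ((spl n).symm z)‖ₑ ^ 2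
  have hΦm : Measurable Φ := by
    have := meas_param (X := ℝ × E n) (G := fun _ : ℝ × E n => G)
      (hG.comp measurable_snd) (hϱ.comp (hq.comp measurable_snd)) (spl n).symm.measurable
    exact this.enorm.pow_const 2
  have e1 : ∫⁻ w, ‖ballInt G (ϱ (q (spl n w).2)) w‖ₑ ^ 2 = ∫⁻ z : ℝ × E n, Φ z := by
    have : ∀ w : E (n+1), ‖ballInt G (ϱ (q (spl n w).2)) w‖ₑ ^ 2 = Φ (spl n w) := by
      intro w
      simp only [Φ]
      rw [MeasurableEquiv.symm_apply_apply]
    rw [lintegral_congr this, (spl_mp n).lintegral_comp_emb (spl n).measurableEmbedding Φ]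
  have hHm : Measurable (fun p : E n × ℝ => ‖ballInt (sl G p.2) (rad (ϱ (q p.1)) p.2) p.1‖ₑ ^ 2) := by
    have := meas_param (X := E n × ℝ) (G := fun p : E n × ℝ => sl G p.2)
      (R := fun p => rad (ϱ (q p.1)) p.2) (p := fun p => p.1)
      ((measurable_sl hG).comp ((measurable_snd.comp measurable_fst).prodMk measurable_snd))
      (measurable_rad.comp ((hϱ.comp (hq.comp measurable_fst)).prodMk measurable_snd))
      measurable_fst
    exact this.enorm.pow_const 2
  calc ∫⁻ w, ‖ballInt G (ϱ (q (spl n w).2)) w‖ₑ ^ 2 = ∫⁻ z : ℝ × E n, Φ z := e1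
    _ = ∫⁻ x : E n, ∫⁻ y : ℝ, Φ (y, x) := by
        rw [hv, lintegral_prod_symm _ hΦm.aemeasurable]
    _ ≤ ∫⁻ x : E n, 2 * ∫⁻ η : ℝ, ‖ballInt (sl G η) (rad (ϱ (q x)) η) x‖ₑ ^ 2 := by
        refine lintegral_mono fun x => ?_
        obtain ⟨hi, hf⟩ := slice_formula hG2 (ϱ (q x)) x
        simp only [Φ, hf]
        exact planch1 hi
    _ = 2 * ∫⁻ x : E n, ∫⁻ η : ℝ, ‖ballInt (sl G η) (rad (ϱ (q x)) η) x‖ₑ ^ 2 :=
        lintegral_const_mul' _ _ (by norm_num)
    _ = 2 * ∫⁻ η : ℝ, ∫⁻ x : E n, ‖ballInt (sl G η) (rad (ϱ (q x)) η) x‖ₑ ^ 2 := by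
        congr 1
        exact lintegral_lintegral_swap (f := fun x η => ‖ballInt (sl G η) (rad (ϱ (q x)) η) x‖ₑ ^ 2)
          hHm.aemeasurable
    _ ≤ 2 * ∫⁻ η : ℝ, D * ∫⁻ ξ, ‖sl G η ξ‖ₑ ^ 2 := by
        gcongr with η
        have hslm : Measurable (sl G η) := (measurable_sl hG).comp measurable_prodMk_left
        by_cases htop : ∫⁻ ξ, ‖sl G η ξ‖ₑ ^ 2 = ∞
        · rw [htop, ENNReal.mul_top hD]
          exact le_top
        · refine h (fun a => rad (ϱ a) η) (measurable_rad.comp (hϱ.prodMk measurable_const)) (sl G η) hslm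
            ⟨hslm.aestronglyMeasurable, ?_⟩
          by_contra hcon
          rw [not_lt, top_le_iff] at hcon
          apply htop
          rw [← sq_int_eq, hcon]
          simp
    _ = 2 * D * ∫⁻ w, ‖G w‖ₑ ^ 2 := by
        rw [lintegral_const_mul _ (Measurable.lintegral_prod_right'
          (f := fun p : ℝ × E n => ‖sl G p.1 p.2‖ₑ ^ 2) ((measurable_sl hG).enorm.pow_const 2)),
          lint_slices hG, mul_assoc]

/-- The last `m` coordinates. -/
noncomputable def tail (m k : ℕ) (w : E (m+k)) : E m := WithLp.toLp 2 (fun i => w (Fin.addNat i k))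

lemma tail_zero (m : ℕ) (w : E m) : tail m 0 w = w := by
  ext i
  rfl

lemma tail_succ (m k : ℕ) (w : E (m+k+1)) : tail m (k+1) w = tail m k (spl (m+k) w).2 := by
  ext i
  change w (Fin.addNat i (k+1)) = (spl (m+k) w).2 (Fin.addNat i k)
  rw [spl_snd]
  rfl

lemma measurable_tail (m k : ℕ) : Measurable (tail m k) := by
  have : Continuous (tail m k) := by
    unfold tail
    fun_prop
  exact this.measurable

/-- **From dimension `m` to dimension `m+k`, for radius functions of the last `m` coordinates.** -/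
theorem up {m : ℕ} (hm : 1 ≤ m) {D : ℝ≥0∞} (hD : D ≠ 0)
    (h : ∀ g : E m → ℂ, MemLp g 2 volume → ∫⁻ x, maxBall g x ^ 2 ≤ D * ∫⁻ ξ, ‖g ξ‖ₑ ^ 2) (k : ℕ) :
    ∀ ϱ : E m → ℝ, Measurable ϱ → ∀ G : E (m+k) → ℂ, Measurable G → MemLp G 2 volume →
      ∫⁻ w, ‖ballInt G (ϱ (tail m k w)) w‖ₑ ^ 2 ≤ 2 ^ k * D * ∫⁻ w, ‖G w‖ₑ ^ 2 := by
  induction k with
  | zero =>
    intro ϱ _ G _ hG2
    have hnt : Nontrivial (E m) := finrank_pos_nontrivial (by simpa using hm)
    rw [pow_zero, one_mul]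
    refine le_trans (lintegral_mono fun w => ?_) (h G hG2)
    change ‖ballInt G (ϱ (tail m 0 w)) w‖ₑ ^ 2 ≤ maxBall G w ^ 2
    gcongr
    rcases le_or_gt (ϱ (tail m 0 w)) 0 with h0 | h0
    · have : ballInt G (ϱ (tail m 0 w)) w = 0 := by
        rcases h0.lt_or_eq with h1 | h1
        · unfold ballInt
          rw [Metric.closedBall_eq_empty.2 h1]
          simp
        · rw [h1]; exact ballInt_zero _ _
      rw [this]; simp
    · exact le_iSup₂_of_le (ϱ (tail m 0 w)) h0 le_rfl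
  | succ k ih =>
    intro ϱ hϱ G hG hG2
    have h1 := step_up (n := m+k) (measurable_tail m k) (D := 2 ^ k * D)
      (mul_ne_zero (pow_ne_zero _ (by norm_num)) hD) ih ϱ hϱ G hG hG2
    have e : ∀ w : E (m+k+1), tail m (k+1) w = tail m k (spl (m+k) w).2 := tail_succ m k
    have e2 : (2:ℝ≥0∞) * (2 ^ k * D) = 2 ^ (k+1) * D := by rw [pow_succ]; ring
    rw [e2] at h1
    simp only [e]
    exact h1

end R13.Few
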